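import Mathlib
import Pool.Agent.H204R3.GP.Defs

/-!
# Jacobians of superelliptic curves: definitions
-/

namespace Pool.Agent.Y128.SJ

open Module TensorProduct Polynomial Pool.Agent.H204R3.GP

/-- The multiplicity `⌊n j / p⌋` (minus one if `p` divides `n`) of the eigenvalue with the number `j`
of the automorphism on the holomorphic differentials of the curve `y ^ p = f(x)`, `deg f = n`. -/
def mult (p n : ℕ) (j : ZMod p) : ℕ := n * j.val / p - (if p ∣ n then 1 else 0)

/-- The dimension `n - 1` (`n - 2` if `p` divides `n`) of the eigenspaces of the automorphism on the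
first cohomology group of the curve `y ^ p = f(x)`, `deg f = n`. -/
def rank (p n : ℕ) : ℕ := n - 1 - (if p ∣ n then 1 else 0)

/-- `g` acts as a reflection for the ring generated by the automorphism `σ` of order `p`: it maps `v`
to `σ ^ i v` or `-σ ^ i v`, where `i` is prime to `p`, and `g x - x` is a combination of the `σ ^ j v`
for all `x`; the `σ ^ j v`, `j < p - 1`, are linearly independent. -/
def IsReflection {k V : Type} [Field k] [AddCommGroup V] [Module k V] (p : ℕ)
    (σ : Module.End k V) (g : Module.End k V) : Prop :=
  ∃ v : V, LinearIndependent k (fun j : Fin (p - 1) => (σ ^ (j : ℕ)) v) ∧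
    (∃ i : ℕ, ¬p ∣ i ∧ (g v = (σ ^ i) v ∨ g v = -(σ ^ i) v)) ∧
    ∀ x, g x - x ∈ Submodule.span k (Set.range fun j : ℕ => (σ ^ j) v)

/-- The extension of an operator to the algebraic closure of the coefficient field. -/
noncomputable def ext {k V : Type} [Field k] [AddCommGroup V] [Module k V] (f : Module.End k V) :
    Module.End (AlgebraicClosure k) (AlgebraicClosure k ⊗[k] V) :=
  f.baseChange (AlgebraicClosure k)

/-- The eigenspace of `σ` for the eigenvalue `z` over the algebraic closure. -/
noncomputable def eig {k V : Type} [Field k] [AddCommGroup V] [Module k V] (σ : Module.End k V)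
    (z : AlgebraicClosure k) : Submodule (AlgebraicClosure k) (AlgebraicClosure k ⊗[k] V) :=
  Module.End.eigenspace (ext σ) z

/-- The determinant of an operator on a subspace stable under it. -/
noncomputable def detOn {K X : Type} [Field K] [AddCommGroup X] [Module K X] (f : Module.End K X)
    (U : Submodule K X) (h : ∀ u ∈ U, f u ∈ U) : K :=
  LinearMap.det (f.restrict h)

/-- The Weil pairing `ω`: alternating, nondegenerate, multiplied by the cyclotomic character `χ` under
`ρ` and invariant under `σ`. -/
structure WeilPairing {k V Γ : Type} [Field k] [AddCommGroup V] [Module k V] [Group Γ]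
    (ρ : Representation k Γ V) (χ : Γ →* k) (ω : V →ₗ[k] V →ₗ[k] k) (σ : Module.End k V) :
    Prop where
  alt : ∀ v, ω v v = 0
  nondeg : ∀ u, (∀ v, ω v u = 0) → u = 0
  weil : ∀ s u v, ω (ρ s u) (ρ s v) = χ s * ω u v
  isom : ∀ u v, ω (σ u) (σ v) = ω u v

/-- `σ` commutes with `ρ` and is annihilated by the cyclotomic polynomial of the prime number `p`, and
its eigenspaces have dimension `r`. -/
structure Cyclic {k V Γ : Type} [Field k] [AddCommGroup V] [Module k V] [Group Γ] (p r : ℕ)
    (ρ : Representation k Γ V) (σ : Module.End k V) : Prop where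
  comm : ∀ s, ρ s * σ = σ * ρ s
  cyc : ∑ i ∈ Finset.range p, σ ^ i = 0
  dim : ∀ z, IsPrimitiveRoot z p → finrank (AlgebraicClosure k) (eig σ z) = r

/-- Some (Frobenius) element is semisimple (Weil) and has two eigenvalues in each eigenspace of `σ`
whose quotient is not a root of unity. -/
def HasFrobenius {k V Γ : Type} [Field k] [AddCommGroup V] [Module k V] [Group Γ] (p : ℕ)
    (ρ : Representation k Γ V) (σ : Module.End k V) : Prop :=
  ∃ F : Γ, Module.End.IsSemisimple (ρ F) ∧ ∀ z, IsPrimitiveRoot z p →
    ∃ u ∈ eig σ z, ∃ v ∈ eig σ z, u ≠ 0 ∧ v ≠ 0 ∧ ∃ a b : AlgebraicClosure k,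
      ext (ρ F) u = a • u ∧ ext (ρ F) v = b • v ∧ ∀ m : ℕ, 0 < m → a ^ m ≠ b ^ m

/-- The determinant of `f` on the eigenspace of `σ` for `z` is `D(z)` for the primitive roots of unity
`z` of order `p`. -/
def HasDeterminant {k V : Type} [Field k] [CharZero k] [AddCommGroup V] [Module k V] (p : ℕ)
    (f σ : Module.End k V) (D : ℚ[X]) : Prop :=
  ∀ z : AlgebraicClosure k, IsPrimitiveRoot z p → ∀ h : ∀ u ∈ eig σ z, ext f u ∈ eig σ z,
    detOn (ext f) (eig σ z) h = aeval z D

/-- There is a (Frobenius) element `γ`, of a place over a prime `q` congruent to one modulo `p` with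
`q ^ a` elements in the residue field, whose determinant on the eigenspace of `σ` for each `z` is
`D(z)`, where `D` is a polynomial with rational coefficients, and the valuations of the `D(w ^ s)`,
`w` a root of unity of order `p` in `ℚ_q`, are `a` times the numbers `h s` (the Hodge numbers of the
eigenspaces: the Newton polygon and the Hodge polygon have the same end point). -/
def HasHodgeNumbers {k V Γ : Type} [Field k] [CharZero k] [AddCommGroup V] [Module k V] [Group Γ]
    (p : ℕ) (h : ZMod p → ℕ) (ρ : Representation k Γ V) (χ : Γ →* k) (σ : Module.End k V) : Prop :=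
  ∃ (q a : ℕ) (_ : Fact q.Prime) (γ : Γ) (D : ℚ[X]) (w : ℚ_[q]), 0 < a ∧
    χ γ = (q : k) ^ a ∧ IsPrimitiveRoot w p ∧ HasDeterminant p (ρ γ) σ D ∧
    ∀ s : (ZMod p)ˣ, (aeval (w ^ (s : ZMod p).val) D).valuation = a * h s

/-- Properties of the rational Tate module `V` of the Jacobian of the curve `y ^ p = f(x)`,
`deg f = n`, over a number field which contains the roots of unity of order `p`, with the action
`ρ` of the Galois group `Γ`, the cyclotomic character `χ`, the Weil pairing `ω` and the automorphism
`σ` induced by the automorphism of order `p` of the curve: the properties above, with the dimension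
`rank p n` of the eigenspaces and the Hodge numbers `mult p n`, and `ρ` is semisimple on all
subgroups of finite index (Faltings). -/
structure SuperellipticTateModule {k V Γ : Type} [Field k] [CharZero k] [AddCommGroup V]
    [Module k V] [Group Γ] (p n : ℕ) (ρ : Representation k Γ V) (χ : Γ →* k)
    (ω : V →ₗ[k] V →ₗ[k] k) (σ : Module.End k V) : Prop where
  pairing : WeilPairing ρ χ ω σ
  cyclic : Cyclic p (rank p n) ρ σ
  semisimple : FiniteIndexSemisimple ρ
  frobenius : HasFrobenius p ρ σ
  hodge : HasHodgeNumbers p (mult p n) ρ χ σ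

/-- The only operators on `V` that commute with a subgroup of finite index are the polynomials in
`σ`. -/
def EndomorphismsGeneratedBy {k V Γ : Type} [Field k] [AddCommGroup V] [Module k V] [Group Γ]
    (ρ : Representation k Γ V) (σ : Module.End k V) : Prop :=
  ∀ Δ : Subgroup Γ, Δ.FiniteIndex → ∀ P : Module.End k V, (∀ s ∈ Δ, P * ρ s = ρ s * P) →
    P ∈ Algebra.adjoin k {σ}

end Pool.Agent.Y128.SJ
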