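import Pool.Agent.H916R2.Indep
import Pool.Agent.Y128.SJ.Defs

/-!
# The Hodge numbers of superelliptic curves and odd characters

The multiplicities `mult p n j` of the eigenvalues of the automorphism on the holomorphic
differentials of `y ^ p = f(x)`, `deg f = n`, satisfy no linear relations but the obvious ones.
-/

namespace Pool.Agent.Y128.SJ

open Finset Pool.Agent.H916R2

variable {p n : ℕ} [hp : Fact p.Prime]

theorem two_mult (hn : 2 ≤ n) (j : (ZMod p)ˣ) :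
    (p : ℤ) * (2 * (mult p n (j : ZMod p) : ℤ) - rank p n) =
      n * saw (j : ZMod p) - saw ((n : ZMod p) * (j : ZMod p)) := by
  have hj : (j : ZMod p) ≠ 0 := j.ne_zero
  have hv : 0 < (j : ZMod p).val := by
    rw [Nat.pos_iff_ne_zero]
    intro h
    exact hj ((ZMod.val_eq_zero _).1 h)
  have hp0 : 0 < p := hp.out.pos
  rw [saw, if_neg hj]
  by_cases hd : p ∣ n
  · obtain ⟨k, rfl⟩ := hd
    have hk : 0 < k := by
      rcases Nat.eq_zero_or_pos k with h | h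
      · subst h; omega
      · exact h
    have h1 : ((p * k : ℕ) : ZMod p) * (j : ZMod p) = 0 := by
      rw [Nat.cast_mul, ZMod.natCast_self, zero_mul, zero_mul]
    rw [h1, saw_zero, mult, rank, if_pos (dvd_mul_right p k), mul_assoc, Nat.mul_div_cancel_left _ hp0]
    have h2 : 1 ≤ k * (j : ZMod p).val := Nat.mul_pos hk hv
    have h3 : 2 ≤ p * k := hn
    rw [Nat.cast_sub h2, Nat.sub_sub, Nat.cast_sub h3]
    push_cast
    ring
  · have h1 : ((n : ZMod p) * (j : ZMod p)) ≠ 0 := by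
      intro h
      apply hd
      rcases mul_eq_zero.1 h with h2 | h2
      · exact (ZMod.natCast_eq_zero_iff n p).1 h2
      · exact absurd h2 hj
    have h2 : ((n : ZMod p) * (j : ZMod p)).val = n * (j : ZMod p).val % p := by
      conv_lhs => rw [← ZMod.natCast_zmod_val (j : ZMod p), ← Nat.cast_mul, ZMod.val_natCast]
    rw [saw, if_neg h1, h2, mult, rank, if_neg hd, Nat.sub_zero, Nat.sub_zero]
    have h3 := Nat.div_add_mod (n * (j : ZMod p).val) p
    have h4 : ((p : ℤ) * ((n * (j : ZMod p).val / p : ℕ) : ℤ)) +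
        ((n * (j : ZMod p).val % p : ℕ) : ℤ) = n * ((j : ZMod p).val : ℤ) := by exact_mod_cast h3
    rw [Nat.cast_sub (by omega : 1 ≤ n)]
    push_cast
    push_cast at h4
    linear_combination 2 * h4

theorem SS_one_ne (χ : DirichletCharacter ℂ p) (hχ : χ.Odd) : SS χ 1 ≠ 0 := by
  obtain ⟨a, ha⟩ := exists_SS_ne_zero χ hχ
  have h0 : a ≠ 0 := by
    rintro rfl
    apply ha
    simp [SS, saw_zero]
  intro h
  apply ha
  have h1 := SS_unit χ (Units.mk0 a h0) 1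
  rw [mul_one, Units.val_mk0, h, mul_zero] at h1
  exact h1

theorem char_sum {c : (ZMod p)ˣ → ℤ} (hn : 2 ≤ n)
    (hc : ∀ s : (ZMod p)ˣ, ∑ j, c j * (2 * (mult p n ((j * s : (ZMod p)ˣ) : ZMod p) : ℤ) -
      rank p n) = 0) (χ : DirichletCharacter ℂ p) (hχ : χ.Odd) :
    ∑ j, (c j : ℂ) * (χ (j : ZMod p))⁻¹ = 0 := by
  have h1 : ∀ s : (ZMod p)ˣ, ∑ j, (c j : ℂ) * ((n : ℂ) * (saw ((s : ZMod p) * (j : ZMod p)) : ℂ) -
      (saw ((s : ZMod p) * ((n : ZMod p) * (j : ZMod p))) : ℂ)) = 0 := by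
    intro s
    have h2 : (p : ℤ) * ∑ j, c j * (2 * (mult p n ((j * s : (ZMod p)ˣ) : ZMod p) : ℤ) -
      rank p n) = 0 := by rw [hc s, mul_zero]
    rw [mul_sum] at h2
    have h3 : ∑ j, c j * ((n : ℤ) * saw ((s : ZMod p) * (j : ZMod p)) - saw ((s : ZMod p) * ((n : ZMod p) * (j : ZMod p))))
        = 0 := by
      rw [← h2]
      refine sum_congr rfl fun j _ => ?_
      have h5 := two_mult hn (j * s)
      have e1 : ((j * s : (ZMod p)ˣ) : ZMod p) = (s : ZMod p) * (j : ZMod p) := by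
        rw [Units.val_mul, mul_comm]
      have e2 : (n : ZMod p) * ((s : ZMod p) * (j : ZMod p)) =
          (s : ZMod p) * ((n : ZMod p) * (j : ZMod p)) := by ring
      rw [e1, e2] at h5
      rw [e1, ← h5]
      ring
    have h4 := congrArg (fun z : ℤ => (z : ℂ)) h3
    simpa using h4
  have h2 : ∑ s : (ZMod p)ˣ, χ (s : ZMod p) * ∑ j, (c j : ℂ) *
      ((n : ℂ) * (saw ((s : ZMod p) * (j : ZMod p)) : ℂ) -
      (saw ((s : ZMod p) * ((n : ZMod p) * (j : ZMod p))) : ℂ)) = 0 := by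
    refine Finset.sum_eq_zero fun s _ => ?_
    rw [h1 s, mul_zero]
  have h3 : ∑ j, (c j : ℂ) * ((n : ℂ) * SS χ (j : ZMod p) - SS χ ((n : ZMod p) * (j : ZMod p))) = 0 := by
    rw [← h2]
    simp only [SS, mul_sum, mul_sub, sum_sub_distrib]
    have e1 := sum_comm (s := (univ : Finset (ZMod p)ˣ)) (t := (univ : Finset (ZMod p)ˣ))
      (f := fun s j => χ (s : ZMod p) * ((c j : ℂ) * ((n : ℂ) * (saw ((s : ZMod p) * (j : ZMod p)) : ℂ))))
    have e2 := sum_comm (s := (univ : Finset (ZMod p)ˣ)) (t := (univ : Finset (ZMod p)ˣ))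
      (f := fun s j => χ (s : ZMod p) * ((c j : ℂ) * (saw ((s : ZMod p) * ((n : ZMod p) * (j : ZMod p))) : ℂ)))
    rw [e1, e2]
    congr 1
    · refine sum_congr rfl fun j _ => sum_congr rfl fun s _ => ?_
      ring
    · refine sum_congr rfl fun j _ => sum_congr rfl fun s _ => ?_
      ring
  have hS1 := SS_one_ne χ hχ
  have hun : ∀ j : (ZMod p)ˣ, SS χ (j : ZMod p) = (χ (j : ZMod p))⁻¹ * SS χ 1 := by
    intro j
    have h := SS_unit χ j 1
    rwa [mul_one] at h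
  obtain ⟨a, ha, h4⟩ : ∃ a : ℂ, a ≠ 0 ∧ ∀ j : (ZMod p)ˣ,
      (n : ℂ) * SS χ (j : ZMod p) - SS χ ((n : ZMod p) * (j : ZMod p)) = a * (χ (j : ZMod p))⁻¹ := by
    have hn0 : (n : ℂ) ≠ 0 := Nat.cast_ne_zero.2 (by omega)
    by_cases hd : (n : ZMod p) = 0
    · refine ⟨n * SS χ 1, mul_ne_zero hn0 hS1, fun j => ?_⟩
      have h0 : SS χ (0 : ZMod p) = 0 := by simp [SS, saw_zero]
      rw [hd, zero_mul, h0, hun]
      ring
    · refine ⟨(n - (χ (n : ZMod p))⁻¹) * SS χ 1, mul_ne_zero ?_ hS1, fun j => ?_⟩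
      · intro h
        have h5 : ‖(n : ℂ)‖ = 1 := by
          have h7 := χ.unit_norm_eq_one (Units.mk0 _ hd)
          rw [Units.val_mk0] at h7
          rw [sub_eq_zero.1 h, norm_inv, h7, inv_one]
        rw [Complex.norm_natCast] at h5
        have h6 : n = 1 := by exact_mod_cast h5
        omega
      · have h5 := SS_unit χ (Units.mk0 _ hd) (j : ZMod p)
        rw [Units.val_mk0] at h5
        rw [h5, hun]
        ring
  have h5 : a * ∑ j, (c j : ℂ) * (χ (j : ZMod p))⁻¹ = 0 := by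
    rw [← h3, mul_sum]
    refine sum_congr rfl fun j _ => ?_
    rw [h4]
    ring
  exact (mul_eq_zero.1 h5).resolve_left ha

/-- There are no relations. -/
theorem comb {c : (ZMod p)ˣ → ℤ} (hn : 2 ≤ n)
    (hc : ∀ s : (ZMod p)ˣ, ∑ j, c j * (2 * (mult p n ((j * s : (ZMod p)ˣ) : ZMod p) : ℤ) -
      rank p n) = 0) (i : (ZMod p)ˣ) : c i = c (-i) := by
  have hinv : ∀ (χ : DirichletCharacter ℂ p) (j : (ZMod p)ˣ),
      (χ (j : ZMod p))⁻¹ = χ ((j : ZMod p)⁻¹) := by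
    intro χ j
    have h1 : χ (j : ZMod p) * χ ((j : ZMod p)⁻¹) = 1 := by
      rw [← map_mul, mul_inv_cancel₀ j.ne_zero, map_one]
    exact inv_eq_of_mul_eq_one_right h1
  have h1 : ∀ χ : DirichletCharacter ℂ p,
      ∑ j : (ZMod p)ˣ, ((c j - c (-j) : ℤ) : ℂ) * χ ((j : ZMod p)⁻¹) = 0 := by
    intro χ
    have h2 : ∑ j : (ZMod p)ˣ, (c (-j) : ℂ) * χ ((j : ZMod p)⁻¹) =
        ∑ j : (ZMod p)ˣ, (c j : ℂ) * (χ (-1) * χ ((j : ZMod p)⁻¹)) := by
      rw [← Equiv.sum_comp (Equiv.neg (ZMod p)ˣ)]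
      refine sum_congr rfl fun j _ => ?_
      rw [Equiv.neg_apply, neg_neg, Units.val_neg, inv_neg, ← map_mul, neg_one_mul]
    have h3 : ∑ j : (ZMod p)ˣ, ((c j - c (-j) : ℤ) : ℂ) * χ ((j : ZMod p)⁻¹) =
        (1 - χ (-1)) * ∑ j : (ZMod p)ˣ, (c j : ℂ) * χ ((j : ZMod p)⁻¹) := by
      push_cast
      simp only [sub_mul, sum_sub_distrib, one_mul]
      rw [h2, mul_sum]
      congr 1
      refine sum_congr rfl fun j _ => ?_
      ring
    rw [h3]
    rcases χ.even_or_odd with h | h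
    · rw [h, sub_self, zero_mul]
    · have h4 := char_sum hn hc χ h
      simp only [hinv] at h4
      rw [h4, mul_zero]
  have h2 : ∑ χ : DirichletCharacter ℂ p, (∑ j : (ZMod p)ˣ,
      ((c j - c (-j) : ℤ) : ℂ) * χ ((j : ZMod p)⁻¹)) * χ (i : ZMod p) = 0 :=
    sum_eq_zero fun χ _ => by rw [h1 χ, zero_mul]
  have h3 : ∑ χ : DirichletCharacter ℂ p, (∑ j : (ZMod p)ˣ,
      ((c j - c (-j) : ℤ) : ℂ) * χ ((j : ZMod p)⁻¹)) * χ (i : ZMod p) =
      ∑ j : (ZMod p)ˣ, ((c j - c (-j) : ℤ) : ℂ) *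
        ∑ χ : DirichletCharacter ℂ p, χ ((j : ZMod p)⁻¹) * χ (i : ZMod p) := by
    simp only [sum_mul, mul_sum]
    rw [sum_comm]
    refine sum_congr rfl fun j _ => sum_congr rfl fun χ _ => ?_
    ring
  rw [h3, sum_eq_single i] at h2
  · rw [DirichletCharacter.sum_char_inv_mul_char_eq ℂ i.isUnit, if_pos rfl] at h2
    have h4 : (p.totient : ℂ) ≠ 0 :=
      Nat.cast_ne_zero.2 (Nat.totient_pos.2 hp.out.pos).ne'
    have h5 := (mul_eq_zero.1 h2).resolve_right h4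
    have h6 : c i - c (-i) = 0 := by exact_mod_cast h5
    omega
  · intro j _ hj
    rw [DirichletCharacter.sum_char_inv_mul_char_eq ℂ j.isUnit, if_neg (fun h => hj (Units.ext h)),
      mul_zero]
  · intro h
    exact absurd (mem_univ _) h

end Pool.Agent.Y128.SJ
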