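import Pool.Agent.TH118.CR.Final

/-!
# Complex reflections and independent determinants
-/

set_option linter.unusedSectionVars false

namespace Pool.Agent.Y128.SJ

open Module Pool.Agent.H204R3.SP Pool.Agent.H204R3.GP Pool.Agent.W522.U Pool.Agent.TH118.WC
  Pool.Agent.TH118.CR

variable {K : Type} [Field K] [CharZero K] {X : Type} [AddCommGroup X] [Module K X]
  [FiniteDimensional K X] {Γ : Type} [Group Γ] {R : Representation K Γ X} {χ : Γ →* K}
  {I : Type} {E : I → Submodule K X}

/-- For no nonempty family of the spaces `E i`, never dual to each other, is the product of the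
determinants a power of `χ` on a subgroup of finite index. -/
def DetFree (R : Representation K Γ X) (χ : Γ →* K) (E : I → Submodule K X) : Prop :=
  ∀ (Q : Type) [Fintype Q] [Nonempty Q] (i : Q → I), (∀ q q', ¬Du R χ (E (i q)) (E (i q'))) →
    ∀ (d : ℕ) (Δ : Subgroup Γ) (h : ∀ q, ∀ g ∈ Δ, ∀ u ∈ E (i q), R g u ∈ E (i q)),
      Δ.FiniteIndex → 2 * d = ∑ q, finrank K (E (i q)) →
      ¬∀ (g : Γ) (hg : g ∈ Δ), ∏ q, LinearMap.det ((R g).restrict (h q g hg)) = χ g ^ d

/-- If the determinants are independent the products of bilinear Tate forms and determinants are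
products of bilinear Tate forms. -/
theorem pt_of_det [IsAlgClosed K] (hss : HasProj R) (hE : StronglyIrreducibleSum R E) (hdet : DetFree R χ E)
    {m : ℕ} (φ : MultilinearMap K (fun _ : Fin m × Fin 2 => X) K)
    (hφ : φ ∈ Submodule.span K (DetProd R χ m)) : φ ∈ Submodule.span K (PT R χ m) := by
  classical
  refine Submodule.span_mono ?_ hφ
  rintro ψ ⟨P, Q, hP, hQ, U, f, e, B, C, hB, hC, hU, hnd, ⟨d, Δ, hst, hΔ, hd, hdetΔ⟩, hψ⟩
  have hemp : IsEmpty Q := by
    by_contra hne
    rw [not_isEmpty_iff] at hne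
    choose i hi using fun q => exists_iso hss hE (hU q)
    have hEi : ∀ q, SI R (E (i q)) := fun q => hE.1 (i q)
    choose Δ' hΔ' T hTU h0 hT using hi
    choose D hD hDst using fun q => (hEi q).2.1
    let Δ₁ : Subgroup Γ := Δ ⊓ ⨅ q, Δ' q ⊓ D q
    have hΔ₁ : Δ₁.FiniteIndex := by
      have h1 : (⨅ q, Δ' q ⊓ D q).FiniteIndex := Subgroup.finiteIndex_iInf fun q => inferInstance
      infer_instance
    have hm : ∀ g ∈ Δ₁, g ∈ Δ ∧ ∀ q, g ∈ Δ' q ∧ g ∈ D q := fun g hg =>
      ⟨hg.1, fun q => Subgroup.mem_iInf.1 hg.2 q⟩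
    have hst₁ : ∀ q, ∀ g ∈ Δ₁, ∀ u ∈ E (i q), R g u ∈ E (i q) :=
      fun q g hg u hu => hDst q g ((hm g hg).2 q).2 u hu
    have heq : ∀ q, ∃ e : U q ≃ₗ[K] E (i q), ∀ u : U q, (e u : X) = T q u := fun q =>
      tw_equiv (hU q) (hEi q) (hΔ' q) (hTU q) (h0 q) (hT q)
    choose eq heq' using heq
    refine hdet Q i (fun q q' hdu => hnd q q' ?_) d Δ₁ hst₁ hΔ₁ ?_ fun g hg => ?_
    · have hTw : ∀ q, Tw R (fun _ => 1) (U q) (E (i q)) := fun q =>
        ⟨Δ' q, hΔ' q, T q, hTU q, h0 q, hT q⟩
      have h1 : Du R χ (U q) (E (i q')) := Tw.du (hEi q) (hU q) (hTw q) hdu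
      exact (Tw.du (hEi q') (hU q') (hTw q') h1.symm).symm
    · rw [hd]
      exact Finset.sum_congr rfl fun q _ => (eq q).finrank_eq
    · rw [← hdetΔ g (hm g hg).1]
      refine Finset.prod_congr rfl fun q _ => ?_
      have h1 := det_tw (eq q) ((R g).restrict (hst q g (hm g hg).1))
        ((R g).restrict (hst₁ q g hg)) 1 (fun u => by
          apply Subtype.ext
          rw [one_smul, heq']
          have h2 := hT q g ((hm g hg).2 q).1 u u.2
          rw [one_smul] at h2
          change T q (R g u) = R g (eq q u : X)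
          rw [h2, heq'])
      rw [h1, one_pow, one_mul]
  have hcard : Fintype.card P = m := by
    have h1 := Fintype.card_congr e
    rw [Fintype.card_sum, Fintype.card_prod, Fintype.card_prod, Fintype.card_fin,
      Fintype.card_fin, Fintype.card_sigma, Finset.univ_eq_empty, Finset.sum_empty] at h1
    omega
  let ε : Fin m ≃ P := (Fintype.equivFinOfCardEq hcard).symm
  let σ : Equiv.Perm (Fin m × Fin 2) :=
    ((ε.prodCongr (Equiv.refl (Fin 2))).trans (Equiv.sumEmpty _ _).symm).trans e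
  refine ⟨σ, fun s => B (ε s), fun s => hB _, ?_⟩
  refine MultilinearMap.ext fun v => ?_
  rw [mmG_apply, hψ, Finset.univ_eq_empty (α := Q), Finset.prod_empty, mul_one]
  exact (Fintype.prod_equiv ε _ _ fun s => rfl).symm

/-- **Complex reflections and independent determinants: all Tate forms are generated in degree
two.** -/
theorem refl_pt [IsAlgClosed K] (ω : X →ₗ[K] X →ₗ[K] K) (hnd : ∀ u, (∀ v, ω u v = 0) → u = 0)
    (hωR : ∀ g u v, ω (R g u) (R g v) = χ g * ω u v) (hss : HasProj R)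
    (hE : StronglyIrreducibleSum R E) (hrefl : HasReflections R E) (hF : HasFrobenii R E)
    (hdet : DetFree R χ E) {m : ℕ}
    (φ : MultilinearMap K (fun _ : Fin m × Fin 2 => X) K) (hφ : IsTate R χ m φ) :
    φ ∈ Submodule.span K (PT R χ m) :=
  pt_of_det hss hE hdet φ (refl_det ω hnd hωR hss hE hrefl hF φ hφ)

end Pool.Agent.Y128.SJ
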