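import Pool.Agent.Y128.SJ.Eig
import Pool.Agent.Y128.SJ.Defs

/-!
# Complex reflections from a node of the branch divisor
-/

set_option linter.unusedSectionVars false

namespace Pool.Agent.Y128.SJ

open Module TensorProduct Pool.Agent.H204R3.SP Pool.Agent.H204R3.GP Pool.Agent.W522.U
  Pool.Agent.TH118.CR

section

variable {k : Type} [Field k] {V : Type} [AddCommGroup V] [Module k V]

variable (Ω : Type) [Field Ω] [CharZero Ω] [Algebra k Ω] [FiniteDimensional k V] {p : ℕ}
  [hp : Fact p.Prime] {σ : Module.End k V} (hσ : ∑ i ∈ Finset.range p, σ ^ i = 0)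

theorem bc_pow (σ : Module.End k V) (i : ℕ) : (σ.baseChange Ω) ^ i = (σ ^ i).baseChange Ω := by
  induction i with
  | zero =>
    rw [pow_zero, pow_zero]
    exact (LinearMap.baseChange_id).symm
  | succ i ih =>
    rw [pow_succ, pow_succ, ih]
    exact (LinearMap.baseChange_comp _ _).symm

include hσ in
theorem bc_cyc : ∑ i ∈ Finset.range p, (σ.baseChange Ω) ^ i = 0 := by
  simp only [bc_pow]
  have h1 : (∑ i ∈ Finset.range p, σ ^ i).baseChange Ω =
      ∑ i ∈ Finset.range p, (σ ^ i).baseChange Ω :=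
    map_sum (LinearMap.baseChangeHom k Ω V V) _ _
  rw [← h1, hσ, LinearMap.baseChange_zero]

include hσ in
/-- The components of `1 ⊗ v` do not vanish. -/
theorem comp_ne {v : V} (hv : LinearIndependent k (fun j : Fin (p - 1) => (σ ^ (j : ℕ)) v))
    {z : Ω} (hz : z ^ p = 1) (hz1 : z ≠ 1) :
    pj (σ.baseChange Ω) p z ((1 : Ω) ⊗ₜ[k] v) ≠ 0 := by
  intro h0
  have hz0 : z ≠ 0 := by
    rintro rfl
    rw [zero_pow hp.out.ne_zero] at hz
    exact zero_ne_one hz
  obtain ⟨q, hq⟩ : ∃ q, p = q + 1 := ⟨p - 1, (Nat.succ_pred_eq_of_pos hp.out.pos).symm⟩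
  have hq' : p - 1 = q := by omega
  have hq0 : 0 < q := by
    have := hp.out.two_le
    omega
  -- linear independence over `Ω`
  have hind : LinearIndependent Ω (fun j : Fin q => (1 : Ω) ⊗ₜ[k] (σ ^ (j : ℕ)) v) := by
    rw [← hq']
    exact Module.Flat.linearIndependent_one_tmul hv
  have h1 : ∀ x : Ω ⊗[k] V, ∑ i ∈ Finset.range p, ((σ.baseChange Ω) ^ i) x = 0 := by
    intro x
    rw [← LinearMap.sum_apply, bc_cyc Ω hσ, LinearMap.zero_apply]
  have h2 := h1 ((1 : Ω) ⊗ₜ[k] v)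
  rw [pj, LinearMap.sum_apply] at h0
  rw [hq, Finset.sum_range_succ] at h0 h2
  have h3 : ∑ i ∈ Finset.range q, ((z⁻¹) ^ i - (z⁻¹) ^ q) •
      ((σ.baseChange Ω) ^ i) ((1 : Ω) ⊗ₜ[k] v) = 0 := by
    have hs : ∀ (a b : Ω) (y : Ω ⊗[k] V), (a - b) • y = a • y - b • y :=
      fun a b y => sub_smul a b y
    simp only [hs, Finset.sum_sub_distrib]
    rw [← Finset.smul_sum, eq_neg_of_add_eq_zero_left h2, smul_neg, sub_neg_eq_add]
    exact h0
  rw [← Fin.sum_univ_eq_sum_range (fun i => ((z⁻¹) ^ i - (z⁻¹) ^ q) •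
      ((σ.baseChange Ω) ^ i) ((1 : Ω) ⊗ₜ[k] v))] at h3
  have h4 := Fintype.linearIndependent_iff.1 hind (fun i => (z⁻¹) ^ (i : ℕ) - (z⁻¹) ^ q) (by
    rw [← h3]
    refine Finset.sum_congr rfl fun i _ => ?_
    rw [bc_pow, LinearMap.baseChange_tmul]) ⟨0, hq0⟩
  apply hz1
  have h5 : (z⁻¹) ^ q = 1 := by
    have h6 : (z⁻¹) ^ 0 - (z⁻¹) ^ q = 0 := h4
    rw [pow_zero] at h6
    exact (sub_eq_zero.1 h6).symm
  have h6 : (z⁻¹) ^ p = 1 := by rw [inv_pow, hz, inv_one]
  rw [hq, pow_succ, h5, one_mul] at h6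
  exact inv_eq_one.1 h6

include hσ in
theorem pow_ev {z₀ : Ω} (hz₀ : IsPrimitiveRoot z₀ p) (j : (ZMod p)ˣ) (i : ℕ) :
    ev z₀ j ^ i = z₀ ^ ((j : ZMod p) * i).val := by
  rw [ev, ← pow_mul, ← pow_val hz₀, Nat.cast_mul, ZMod.natCast_zmod_val]

include hσ in
/-- The reflection acts on the eigenspaces as a complex reflection. -/
theorem reflects {g : Module.End k V} (hg : IsReflection p σ g) (hcomm : g * σ = σ * g) {z₀ : Ω}
    (hz₀ : IsPrimitiveRoot z₀ p) (hp2 : p ≠ 2) :
    ∃ ε : (ZMod p)ˣ → Ω, (∀ j, ∃ (d : Ω ⊗[k] V) (φ : (Ω ⊗[k] V) →ₗ[Ω] Ω),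
      d ∈ Module.End.eigenspace (σ.baseChange Ω) (ev z₀ j) ∧ φ d = 1 ∧
      ∀ u ∈ Module.End.eigenspace (σ.baseChange Ω) (ev z₀ j),
        g.baseChange Ω u = u + ((ε j - 1) * φ u) • d) ∧
      (∀ j, ε j ^ (2 * p) = 1 ∧ ε j ≠ 1 ∧ ε j ≠ -1) ∧ ∀ j j', ε j = ε j' → j = j' := by
  obtain ⟨v, hv, ⟨i, hi, hgv⟩, hsub⟩ := hg
  obtain ⟨c, hc, hgv⟩ : ∃ c : k, (c = 1 ∨ c = -1) ∧ g v = c • (σ ^ i) v := by
    rcases hgv with h | h
    · exact ⟨1, Or.inl rfl, by rw [h, one_smul]⟩
    · exact ⟨-1, Or.inr rfl, by rw [h, neg_one_smul]⟩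
  set S := σ.baseChange Ω with hS
  set G := g.baseChange Ω with hG
  set v' := (1 : Ω) ⊗ₜ[k] v with hv'
  have hGS : G * S = S * G := by
    have h1 : (g * σ).baseChange Ω = G * S := LinearMap.baseChange_comp _ _
    have h2 : (σ * g).baseChange Ω = S * G := LinearMap.baseChange_comp _ _
    rw [← h1, ← h2, hcomm]
  have hcyc : ∑ i ∈ Finset.range p, S ^ i = 0 := bc_cyc Ω hσ
  obtain ⟨c', hc', hcc⟩ : ∃ c' : Ω, (c' = 1 ∨ c' = -1) ∧ c' = algebraMap k Ω c := by
    refine ⟨_, ?_, rfl⟩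
    rcases hc with h | h
    · left; rw [h, map_one]
    · right; rw [h, map_neg, map_one]
  have hi0 : (i : ZMod p) ≠ 0 := fun h => hi ((ZMod.natCast_eq_zero_iff i p).1 h)
  have hodd : Odd p := hp.out.odd_of_ne_two hp2
  have hone : (-1 : Ω) ≠ 1 := by
    intro h
    have h2 : (2 : Ω) = 0 := by linear_combination -h
    exact two_ne_zero h2
  have hw1 : ∀ j : (ZMod p)ˣ, ev z₀ j ^ i ≠ 1 := by
    intro j h
    rw [pow_ev Ω hσ hz₀] at h
    have h1 : z₀ ^ ((j : ZMod p) * i).val = z₀ ^ (0 : ZMod p).val := by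
      rw [ZMod.val_zero, pow_zero, h]
    exact mul_ne_zero j.ne_zero hi0 (pow_inj hz₀ h1)
  have hwp : ∀ j : (ZMod p)ˣ, (ev z₀ j ^ i) ^ p = 1 := by
    intro j
    rw [← pow_mul, mul_comm, pow_mul, ev_pow hz₀, one_pow]
  have hw2 : ∀ j : (ZMod p)ˣ, ev z₀ j ^ i ≠ -1 := by
    intro j h
    have h1 := hwp j
    rw [h, hodd.neg_one_pow] at h1
    exact hone h1
  have hcp : c' ^ 2 = 1 := by
    rcases hc' with h | h <;> rw [h] <;> norm_num
  refine ⟨fun j => c' * ev z₀ j ^ i, fun j => ?_, fun j => ⟨?_, ?_, ?_⟩, fun j j' h => ?_⟩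
  · have hε : c' * ev z₀ j ^ i ≠ 1 := by
      rcases hc' with h | h
      · rw [h, one_mul]; exact hw1 j
      · rw [h, neg_one_mul]
        intro h1
        exact hw2 j (by rw [← h1, neg_neg])
    have hd0 := comp_ne Ω hσ hv (ev_pow hz₀ j) (ev_ne_one hz₀ j)
    set d := pj S p (ev z₀ j) v' with hd
    have hdE : d ∈ Module.End.eigenspace S (ev z₀ j) := pj_mem hcyc (ev_pow hz₀ j) v'
    have hSd : ∀ l : ℕ, (S ^ l) d = ev z₀ j ^ l • d := by
      intro l
      induction l with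
      | zero => rw [pow_zero, pow_zero, one_smul]; rfl
      | succ l ih =>
        rw [pow_succ', Module.End.mul_apply, ih, map_smul, Module.End.mem_eigenspace_iff.1 hdE,
          smul_smul, ← pow_succ]
    have hpS : ∀ l : ℕ, pj S p (ev z₀ j) ((S ^ l) v') = ev z₀ j ^ l • d := by
      intro l
      rw [pj_comm (T := S ^ l) (by rw [← pow_succ, ← pow_succ']), hSd]
    have hGd : G d = (c' * ev z₀ j ^ i) • d := by
      rw [hd, ← pj_comm hGS]
      have h1 : G v' = c' • (S ^ i) v' := by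
        rw [hG, hv', LinearMap.baseChange_tmul, hgv, bc_pow, LinearMap.baseChange_tmul, hcc,
          TensorProduct.tmul_smul, algebraMap_smul]
      rw [h1, map_smul, hpS, smul_smul]
    have hM : ∀ u, G u - u ∈ Submodule.span Ω (Set.range fun l : ℕ => (S ^ l) v') := by
      intro u
      induction u using TensorProduct.induction_on with
      | zero => rw [map_zero, sub_zero]; exact Submodule.zero_mem _
      | tmul a x =>
        have h1 : G (a ⊗ₜ[k] x) - a ⊗ₜ[k] x = a • ((1 : Ω) ⊗ₜ[k] (g x - x)) := by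
          rw [hG, LinearMap.baseChange_tmul, TensorProduct.smul_tmul', smul_eq_mul, mul_one,
            TensorProduct.tmul_sub]
        rw [h1]
        refine Submodule.smul_mem _ _ ?_
        have h2 := hsub x
        generalize g x - x = y at h2
        induction h2 using Submodule.span_induction with
        | mem y hy =>
          obtain ⟨l, rfl⟩ := hy
          refine Submodule.subset_span ⟨l, ?_⟩
          change (S ^ l) v' = _
          rw [bc_pow, hv', LinearMap.baseChange_tmul]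
        | zero => rw [TensorProduct.tmul_zero]; exact Submodule.zero_mem _
        | add y y' _ _ h h' => rw [TensorProduct.tmul_add]; exact Submodule.add_mem _ h h'
        | smul b y _ h =>
          rw [TensorProduct.tmul_smul, ← algebraMap_smul Ω b]
          exact Submodule.smul_mem _ _ h
      | add y y' h h' =>
        rw [map_add, add_sub_add_comm]
        exact Submodule.add_mem _ h h'
    have hp0 : (p : Ω) ≠ 0 := Nat.cast_ne_zero.2 hp.out.ne_zero
    have hline : ∀ u ∈ Module.End.eigenspace S (ev z₀ j), ∃ t : Ω, G u - u = t • d := by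
      intro u hu
      have h1 : ∀ y ∈ Submodule.span Ω (Set.range fun l : ℕ => (S ^ l) v'),
          ∃ t : Ω, pj S p (ev z₀ j) y = t • d := by
        intro y hy
        induction hy using Submodule.span_induction with
        | mem y hy =>
          obtain ⟨l, rfl⟩ := hy
          exact ⟨_, hpS l⟩
        | zero => exact ⟨0, by rw [map_zero, zero_smul]⟩
        | add y y' _ _ h h' =>
          obtain ⟨t, ht⟩ := h
          obtain ⟨t', ht'⟩ := h'
          exact ⟨t + t', by rw [map_add, ht, ht', add_smul]⟩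
        | smul b y _ h =>
          obtain ⟨t, ht⟩ := h
          exact ⟨b * t, by rw [map_smul, ht, smul_smul]⟩
      obtain ⟨t, ht⟩ := h1 _ (hM u)
      have hGu : G u ∈ Module.End.eigenspace S (ev z₀ j) := by
        rw [Module.End.mem_eigenspace_iff] at hu ⊢
        have h2 := congrArg (fun f : Module.End Ω (Ω ⊗[k] V) => f u) hGS
        change G (S u) = S (G u) at h2
        rw [← h2, hu, map_smul]
      have hz0 : ev z₀ j ≠ 0 := by
        intro h
        have h2 := ev_pow hz₀ j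
        rw [h, zero_pow hp.out.ne_zero] at h2
        exact zero_ne_one h2
      rw [pj_eig hz0 (Submodule.sub_mem _ hGu hu)] at ht
      refine ⟨(p : Ω)⁻¹ * t, ?_⟩
      rw [← smul_smul, ← ht, smul_smul, inv_mul_cancel₀ hp0, one_smul]
    obtain ⟨lam, hlam⟩ : ∃ lam : (Ω ⊗[k] V) →ₗ[Ω] Ω, lam d = 1 := by
      obtain ⟨f, hf⟩ : ∃ f : Module.Dual Ω (Ω ⊗[k] V), f d ≠ 0 := by
        by_contra h
        push Not at h
        exact hd0 ((Module.forall_dual_apply_eq_zero_iff Ω d).1 h)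
      exact ⟨(f d)⁻¹ • f, by rw [LinearMap.smul_apply, smul_eq_mul, inv_mul_cancel₀ hf]⟩
    have hε' : c' * ev z₀ j ^ i - 1 ≠ 0 := sub_ne_zero.2 hε
    refine ⟨d, (c' * ev z₀ j ^ i - 1)⁻¹ • lam.comp (G - LinearMap.id), hdE, ?_, fun u hu => ?_⟩
    · rw [LinearMap.smul_apply, LinearMap.comp_apply, LinearMap.sub_apply, LinearMap.id_apply, hGd,
        map_sub, map_smul, hlam, smul_eq_mul, smul_eq_mul, mul_one]
      exact inv_mul_cancel₀ hε'
    · obtain ⟨t, ht⟩ := hline u hu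
      rw [LinearMap.smul_apply, LinearMap.comp_apply, LinearMap.sub_apply, LinearMap.id_apply, ht,
        map_smul, hlam, smul_eq_mul, smul_eq_mul, mul_one, mul_inv_cancel_left₀ hε', ← ht,
        add_sub_cancel]
  · change (c' * ev z₀ j ^ i) ^ (2 * p) = 1
    rw [mul_pow, pow_mul, hcp, one_pow, one_mul, mul_comm 2 p, pow_mul, hwp, one_pow]
  · change c' * ev z₀ j ^ i ≠ 1
    rcases hc' with h | h
    · rw [h, one_mul]; exact hw1 j
    · rw [h, neg_one_mul]
      intro h1
      exact hw2 j (by rw [← h1, neg_neg])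
  · change c' * ev z₀ j ^ i ≠ -1
    rcases hc' with h | h
    · rw [h, one_mul]; exact hw2 j
    · rw [h, neg_one_mul]
      intro h1
      exact hw1 j (neg_injective h1)
  · have h1 : ev z₀ j ^ i = ev z₀ j' ^ i := by
      have hc0 : c' ≠ 0 := by
        rintro rfl
        rw [zero_pow two_ne_zero] at hcp
        exact zero_ne_one hcp
      exact mul_left_cancel₀ hc0 h
    rw [pow_ev Ω hσ hz₀, pow_ev Ω hσ hz₀] at h1
    exact Units.ext (mul_right_cancel₀ hi0 (pow_inj hz₀ h1))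

end

end Pool.Agent.Y128.SJ
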