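import Pool.Agent.Y128.SJ.Comb
import Pool.Agent.Y128.SJ.Det
import Pool.Agent.Y128.SJ.Node

/-!
# The eigenspaces of the automorphism are strongly irreducible
-/

set_option linter.unusedSectionVars false

namespace Pool.Agent.Y128.SJ

open Module TensorProduct Polynomial Pool.Agent.H204R3.SP Pool.Agent.H204R3.GP
  Pool.Agent.W522.U Pool.Agent.TH118.CR

section diag

variable {k : Type} [Field k] [CharZero k] {V : Type} [AddCommGroup V] [Module k V]
  [FiniteDimensional k V] (Ω : Type) [Field Ω] [CharZero Ω] [Algebra k Ω] [IsAlgClosed Ω]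

/-- A semisimple operator is diagonalizable over an algebraically closed field. -/
theorem exists_diag {f : Module.End k V} (hf : Module.End.IsSemisimple f) :
    ∃ b : Basis (Fin (finrank Ω (Ω ⊗[k] V))) Ω (Ω ⊗[k] V), ∀ i, ∃ a : Ω,
      f.baseChange Ω (b i) = a • b i := by
  classical
  have h1 : Squarefree (minpoly k f) := hf.minpoly_squarefree
  have h2 : (minpoly k f).Separable := PerfectField.separable_iff_squarefree.2 h1
  have h3 : Squarefree ((minpoly k f).map (algebraMap k Ω)) := (h2.map).squarefree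
  have h4 : aeval (f.baseChange Ω) ((minpoly k f).map (algebraMap k Ω)) = 0 := by
    rw [aeval_map_algebraMap]
    have h5 : aeval (Module.End.baseChangeHom k Ω V f) (minpoly k f) =
        Module.End.baseChangeHom k Ω V (aeval f (minpoly k f)) := aeval_algHom_apply _ _ _
    rw [minpoly.aeval, map_zero] at h5
    exact h5
  have h5 : Module.End.IsSemisimple (f.baseChange Ω) :=
    Module.End.isSemisimple_of_squarefree_aeval_eq_zero h3 h4
  have h6 : ⨆ μ : Ω, Module.End.eigenspace (f.baseChange Ω) μ = ⊤ := by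
    have h7 := Module.End.iSup_maxGenEigenspace_eq_top (f.baseChange Ω)
    rw [← h7]
    refine iSup_congr fun μ => ?_
    exact (h5.isFinitelySemisimple.maxGenEigenspace_eq_eigenspace μ).symm
  let s : Set (Ω ⊗[k] V) := {x | ∃ a : Ω, f.baseChange Ω x = a • x}
  have h7 : Submodule.span Ω s = ⊤ := by
    rw [eq_top_iff, ← h6, iSup_le_iff]
    intro μ x hx
    exact Submodule.subset_span ⟨μ, Module.End.mem_eigenspace_iff.1 hx⟩
  obtain ⟨t, ht, hts, hind⟩ := exists_linearIndependent Ω s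
  rw [h7] at hts
  let B : Basis t Ω (Ω ⊗[k] V) := Basis.mk hind (by rw [Subtype.range_coe, hts])
  have hfin : Fintype t := FiniteDimensional.fintypeBasisIndex B
  have hcard : Fintype.card t = finrank Ω (Ω ⊗[k] V) := (finrank_eq_card_basis B).symm
  refine ⟨B.reindex (Fintype.equivFinOfCardEq hcard), fun i => ?_⟩
  rw [Basis.reindex_apply, Basis.mk_apply]
  exact ht ((Fintype.equivFinOfCardEq hcard).symm i).2

end diag

section

variable {k : Type} [Field k] [CharZero k] {V : Type} [AddCommGroup V] [Module k V]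
  [FiniteDimensional k V] (Ω : Type) [Field Ω] [CharZero Ω] [Algebra k Ω]
  [Algebra.IsAlgebraic k Ω] {Γ : Type} [Group Γ] {ρ : Representation k Γ V} {χ : Γ →* k}
  {σ : Module.End k V}

theorem bcr_comm (hcomm : ∀ s, ρ s * σ = σ * ρ s) (s : Γ) :
    bcr ρ Ω s * σ.baseChange Ω = σ.baseChange Ω * bcr ρ Ω s := by
  have h1 : (ρ s * σ).baseChange Ω = bcr ρ Ω s * σ.baseChange Ω := LinearMap.baseChange_comp _ _
  have h2 : (σ * ρ s).baseChange Ω = σ.baseChange Ω * bcr ρ Ω s := LinearMap.baseChange_comp _ _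
  rw [← h1, ← h2, hcomm]

theorem eig_stable (hcomm : ∀ s, ρ s * σ = σ * ρ s) (z : Ω) (s : Γ) :
    ∀ u ∈ Module.End.eigenspace (σ.baseChange Ω) z,
      bcr ρ Ω s u ∈ Module.End.eigenspace (σ.baseChange Ω) z := by
  intro u hu
  rw [Module.End.mem_eigenspace_iff] at hu ⊢
  have h1 := congrArg (fun f : Module.End Ω (Ω ⊗[k] V) => f u) (bcr_comm Ω hcomm s)
  change bcr ρ Ω s (σ.baseChange Ω u) = σ.baseChange Ω (bcr ρ Ω s u) at h1
  rw [← h1, hu, map_smul]

/-- The eigenspaces are strongly irreducible. -/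
theorem eig_SI (hcomm : ∀ s, ρ s * σ = σ * ρ s) (hss : FiniteIndexSemisimple ρ)
    (hend : EndomorphismsGeneratedBy ρ σ) {z : Ω}
    (h0 : Module.End.eigenspace (σ.baseChange Ω) z ≠ ⊥) :
    SI (bcr ρ Ω) (Module.End.eigenspace (σ.baseChange Ω) z) := by
  refine ⟨h0, ⟨⊤, inferInstance, fun s _ => eig_stable Ω hcomm z s⟩, ?_⟩
  rintro W hW ⟨Δ, hΔ, hst⟩
  obtain ⟨P, hP1, hP2, hP3⟩ := hasProj_bcr ρ Ω hss Δ hΔ W hst
  obtain ⟨c, hc⟩ := scalar_of_comm (Ω := Ω) (ρ '' (Δ : Set Γ)) σ (fun Q hQ =>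
    hend Δ hΔ Q fun s hs => hQ _ ⟨s, hs, rfl⟩) P (by
      rintro _ ⟨s, hs, rfl⟩
      exact LinearMap.ext fun v => hP3 s hs v) z
  by_cases hc0 : c = 0
  · left
    rw [eq_bot_iff]
    intro u hu
    rw [Submodule.mem_bot, ← hP2 u hu, hc u (hW hu), hc0, zero_smul]
  · right
    refine le_antisymm hW fun u hu => ?_
    have h1 : u = c⁻¹ • P u := by rw [hc u hu, smul_smul, inv_mul_cancel₀ hc0, one_smul]
    rw [h1]
    exact W.smul_mem _ (hP1 u)

/-- The eigenspaces of inverse eigenvalues are dual. -/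
theorem eig_Du (ω : V →ₗ[k] V →ₗ[k] k) (halt : ∀ v, ω v v = 0)
    (hnd : ∀ u, (∀ v, ω v u = 0) → u = 0) (hweil : ∀ s u v, ω (ρ s u) (ρ s v) = χ s * ω u v)
    (hisom : ∀ u v, ω (σ u) (σ v) = ω u v) {p : ℕ} [hp : Fact p.Prime]
    (hσ : ∑ i ∈ Finset.range p, σ ^ i = 0) {z₀ : Ω} (hz₀ : IsPrimitiveRoot z₀ p) (j : (ZMod p)ˣ)
    (h0 : Module.End.eigenspace (σ.baseChange Ω) (ev z₀ j) ≠ ⊥) :
    Du (bcr ρ Ω) (bcc χ Ω) (Module.End.eigenspace (σ.baseChange Ω) (ev z₀ j))
      (Module.End.eigenspace (σ.baseChange Ω) (ev z₀ (-j))) := by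
  refine ⟨⊤, inferInstance, bcb Ω ω, ?_, fun s _ u _ v _ => bcb_inv ρ χ ω hweil s u v⟩
  obtain ⟨u, hu, hu0⟩ := Submodule.exists_mem_ne_zero_of_ne_bot h0
  by_contra hcon
  push Not at hcon
  have hS : ∀ x y : Ω ⊗[k] V, bcb Ω ω (σ.baseChange Ω x) (σ.baseChange Ω y) = bcb Ω ω x y := by
    intro x y
    induction x with
    | zero => simp only [map_zero, LinearMap.zero_apply]
    | add u u' hu hu' => simp only [map_add, LinearMap.add_apply, hu, hu']
    | tmul a u =>
      induction y with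
      | zero => simp only [map_zero]
      | add v v' hv hv' => simp only [map_add, hv, hv']
      | tmul b v =>
        rw [LinearMap.baseChange_tmul, LinearMap.baseChange_tmul, bcb_tmul, bcb_tmul, hisom]
  apply hu0
  refine bcb_nondeg_left ω hnd (left_nondeg ω halt hnd) u fun v => ?_
  have hv : v ∈ ⨆ i : (ZMod p)ˣ, Module.End.eigenspace (σ.baseChange Ω) (ev z₀ i) := by
    rw [iSup_eig (bc_cyc Ω hσ) hz₀]
    trivial
  have hle : (⨆ i : (ZMod p)ˣ, Module.End.eigenspace (σ.baseChange Ω) (ev z₀ i)) ≤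
      LinearMap.ker (bcb Ω ω u) := by
    rw [iSup_le_iff]
    intro i w hw
    rw [LinearMap.mem_ker]
    by_cases hij : ev z₀ j * ev z₀ i = 1
    · have h1 := ev_dual hz₀ hij
      subst h1
      exact hcon u hu w hw
    · have h1 := hS u w
      rw [Module.End.mem_eigenspace_iff.1 hu, Module.End.mem_eigenspace_iff.1 hw, map_smul,
        map_smul, LinearMap.smul_apply, smul_eq_mul, smul_eq_mul, ← mul_assoc,
        mul_comm (ev z₀ i)] at h1
      have h2 : (ev z₀ j * ev z₀ i - 1) * bcb Ω ω u w = 0 := by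
        rw [sub_mul, one_mul, h1, sub_self]
      exact (mul_eq_zero.1 h2).resolve_left (sub_ne_zero.2 hij)
  exact hle hv

end

end Pool.Agent.Y128.SJ
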