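import Pool.Agent.Y128.SJ.Val

/-!
# Tate classes on the powers of superelliptic Jacobians
-/

set_option linter.unusedSectionVars false

namespace Pool.Agent.Y128.SJ

open Module TensorProduct Polynomial Pool.Agent.H204R3.SP Pool.Agent.H204R3.GP
  Pool.Agent.W522.U Pool.Agent.TH118.CR

section

variable {K : Type} [Field K] {X : Type} [AddCommGroup X] [Module K X] [FiniteDimensional K X]
  {Γ : Type} [Group Γ]

theorem det_pow {R : Representation K Γ X} {U : Submodule K X} (γ : Γ)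
    (h : ∀ u ∈ U, R γ u ∈ U) (N : ℕ) (hN : ∀ u ∈ U, R (γ ^ N) u ∈ U) :
    LinearMap.det ((R (γ ^ N)).restrict hN) = LinearMap.det ((R γ).restrict h) ^ N := by
  rw [← map_pow]
  congr 1
  apply LinearMap.ext
  intro u
  have h1 : ∀ (M : ℕ) (u : U), ((((R γ).restrict h) ^ M) u : X) = R (γ ^ M) u := by
    intro M
    induction M with
    | zero => intro u; rw [pow_zero, pow_zero, map_one]; rfl
    | succ M ih =>
      intro u
      rw [pow_succ', Module.End.mul_apply, pow_succ', map_mul, Module.End.mul_apply, ← ih]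
      rfl
  apply Subtype.ext
  rw [h1]
  rfl

end

section

variable {p n ℓ : ℕ} [hp : Fact p.Prime] [hl : Fact ℓ.Prime] {V Γ : Type} [AddCommGroup V]
  [Module ℚ_[ℓ] V] [FiniteDimensional ℚ_[ℓ] V] [Group Γ] {ρ : Representation ℚ_[ℓ] Γ V}
  {χ : Γ →* ℚ_[ℓ]} {ω : V →ₗ[ℚ_[ℓ]] V →ₗ[ℚ_[ℓ]] ℚ_[ℓ]} {σ : Module.End ℚ_[ℓ] V}

theorem ev_prim {K : Type} [Field K] {z₀ : K} (hz₀ : IsPrimitiveRoot z₀ p) (j : (ZMod p)ˣ) :
    IsPrimitiveRoot (ev z₀ j) p := by
  refine hz₀.pow_of_coprime _ ?_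
  rw [Nat.coprime_comm, Nat.Prime.coprime_iff_not_dvd hp.out]
  intro h1
  have h2 := Nat.le_of_dvd (by
    rw [Nat.pos_iff_ne_zero]
    intro h3
    exact j.ne_zero ((ZMod.val_eq_zero _).1 h3)) h1
  exact absurd (ZMod.val_lt (j : ZMod p)) (not_lt.2 h2)

theorem eig_finrank (h : SuperellipticTateModule p n ρ χ ω σ)
    {z₀ : AlgebraicClosure ℚ_[ℓ]} (hz₀ : IsPrimitiveRoot z₀ p) (j : (ZMod p)ˣ) :
    finrank (AlgebraicClosure ℚ_[ℓ]) (Module.End.eigenspace
      (σ.baseChange (AlgebraicClosure ℚ_[ℓ])) (ev z₀ j)) = rank p n :=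
  h.cyclic.dim _ (ev_prim hz₀ j)

theorem eig_ne (h : SuperellipticTateModule p n ρ χ ω σ) (hr : 3 ≤ rank p n)
    {z₀ : AlgebraicClosure ℚ_[ℓ]} (hz₀ : IsPrimitiveRoot z₀ p) (j : (ZMod p)ˣ) :
    Module.End.eigenspace (σ.baseChange (AlgebraicClosure ℚ_[ℓ])) (ev z₀ j) ≠ ⊥ := by
  intro h0
  have h1 := eig_finrank h hz₀ j
  rw [h0, finrank_bot] at h1
  omega

/-- The determinants of the eigenspaces are independent. -/
theorem det_free (h : SuperellipticTateModule p n ρ χ ω σ) (hr : 3 ≤ rank p n)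
    {z₀ : AlgebraicClosure ℚ_[ℓ]} (hz₀ : IsPrimitiveRoot z₀ p) :
    DetFree (bcr ρ (AlgebraicClosure ℚ_[ℓ])) (bcc χ (AlgebraicClosure ℚ_[ℓ]))
      (fun j : (ZMod p)ˣ => Module.End.eigenspace
        (σ.baseChange (AlgebraicClosure ℚ_[ℓ])) (ev z₀ j)) := by
  classical
  intro Q _ hQ i hnd d Δ hst hΔ hd hall
  obtain ⟨q, a, hq, γ, D, w, ha, hχ, hw, hD, hval⟩ := h.hodge
  obtain ⟨N, hN0, -, hN⟩ := Subgroup.exists_pow_mem_of_index_ne_zero hΔ.index_ne_zero γ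
  have h1 := hall _ hN
  have h2 : ∀ x, LinearMap.det ((bcr ρ (AlgebraicClosure ℚ_[ℓ]) (γ ^ N)).restrict
      (hst x _ hN)) = (aeval (ev z₀ (i x)) D) ^ N := by
    intro x
    rw [det_pow γ (eig_stable _ h.cyclic.comm (ev z₀ (i x)) γ) N (hst x _ hN)]
    congr 1
    exact hD _ (ev_prim hz₀ (i x)) (eig_stable _ h.cyclic.comm (ev z₀ (i x)) γ)
  rw [Finset.prod_congr rfl fun x _ => h2 x, bcc_apply, map_pow, hχ, map_pow, map_pow,
    map_natCast, ← pow_mul, ← pow_mul, ← mul_assoc] at h1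
  have h3 := sum_mult (n := n) hz₀ hw ha hval i hN0 h1
  have h4 : 2 * d = Fintype.card Q * rank p n := by
    rw [hd, Finset.sum_congr rfl fun x _ => eig_finrank h hz₀ (i x), Finset.sum_const,
      Finset.card_univ, smul_eq_mul]
  let c : (ZMod p)ˣ → ℤ := fun j => ((Finset.univ.filter fun x => i x = j).card : ℤ)
  have h5 : ∀ s : (ZMod p)ˣ, ∑ j, c j * (2 * (mult p n ((j * s : (ZMod p)ˣ) : ZMod p) : ℤ) -
      rank p n) = 0 := by
    intro s
    have h6 : ∑ x, (2 * (mult p n ((i x * s : (ZMod p)ˣ) : ZMod p) : ℤ) - rank p n) = 0 := by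
      rw [Finset.sum_sub_distrib, ← Finset.mul_sum, h3 s, Finset.sum_const, Finset.card_univ,
        nsmul_eq_mul]
      have h7 : (2 * d : ℤ) = Fintype.card Q * rank p n := by exact_mod_cast h4
      rw [h7, sub_self]
    rw [← h6, ← Finset.sum_fiberwise_of_maps_to (g := i) (t := Finset.univ)
      (fun x _ => Finset.mem_univ _)]
    refine Finset.sum_congr rfl fun j _ => ?_
    rw [Finset.sum_congr rfl (g := fun _ => (2 * (mult p n ((j * s : (ZMod p)ˣ) : ZMod p) : ℤ) -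
      rank p n)) (fun x hx => by rw [(Finset.mem_filter.1 hx).2]), Finset.sum_const, nsmul_eq_mul]
  have hn : 2 ≤ n := by
    rw [rank] at hr
    omega
  have h6 := comb hn h5
  obtain ⟨x₀⟩ := hQ
  have h7 := h6 (i x₀)
  have h8 : 0 < (Finset.univ.filter fun x => i x = i x₀).card :=
    Finset.card_pos.2 ⟨x₀, Finset.mem_filter.2 ⟨Finset.mem_univ _, rfl⟩⟩
  have h9 : 0 < (Finset.univ.filter fun x => i x = -i x₀).card := by
    have h10 : ((Finset.univ.filter fun x => i x = i x₀).card : ℤ) =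
      ((Finset.univ.filter fun x => i x = -i x₀).card : ℤ) := h7
    omega
  obtain ⟨x₁, hx₁⟩ := Finset.card_pos.1 h9
  have h10 : i x₁ = -i x₀ := (Finset.mem_filter.1 hx₁).2
  refine hnd x₀ x₁ ?_
  rw [h10]
  exact eig_Du _ ω h.pairing.alt h.pairing.nondeg h.pairing.weil h.pairing.isom h.cyclic.cyc hz₀ (i x₀) (eig_ne h hr hz₀ (i x₀))

/-- **Tate classes on the powers of superelliptic Jacobians.** -/
theorem main (h : SuperellipticTateModule p n ρ χ ω σ) (hp2 : p ≠ 2) (hr : 3 ≤ rank p n)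
    (hend : EndomorphismsGeneratedBy ρ σ) {g : Γ} (hg : IsReflection p σ (ρ g)) :
    TateGeneratedInDegreeTwo ρ χ := by
  classical
  have : NeZero ((p : ℕ) : AlgebraicClosure ℚ_[ℓ]) := ⟨Nat.cast_ne_zero.2 hp.out.ne_zero⟩
  obtain ⟨z₀, hz₀⟩ := HasEnoughRootsOfUnity.exists_primitiveRoot (AlgebraicClosure ℚ_[ℓ]) p
  refine generated_of_ext ρ χ (AlgebraicClosure ℚ_[ℓ]) fun m φ hφ => ?_
  have htop := iSup_eig (bc_cyc (AlgebraicClosure ℚ_[ℓ]) h.cyclic.cyc) hz₀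
  have hE : StronglyIrreducibleSum (bcr ρ (AlgebraicClosure ℚ_[ℓ])) (fun j : (ZMod p)ˣ =>
      Module.End.eigenspace (σ.baseChange (AlgebraicClosure ℚ_[ℓ])) (ev z₀ j)) :=
    ⟨fun j => eig_SI _ h.cyclic.comm h.semisimple hend (eig_ne h hr hz₀ j),
      fun j => by rw [eig_finrank h hz₀ j]; exact hr, htop⟩
  obtain ⟨ε, hε1, hε2, hε3⟩ := reflects (AlgebraicClosure ℚ_[ℓ]) h.cyclic.cyc hg (h.cyclic.comm g) hz₀ hp2
  have hrefl : HasReflections (bcr ρ (AlgebraicClosure ℚ_[ℓ])) (fun j : (ZMod p)ˣ =>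
      Module.End.eigenspace (σ.baseChange (AlgebraicClosure ℚ_[ℓ])) (ev z₀ j)) := by
    intro i
    refine ⟨g, ⟨2 * p, Nat.mul_pos two_pos hp.out.pos, ?_⟩, ε, fun j => ?_, (hε2 i).2.1,
      (hε2 i).2.2, fun j hj h1 => hj (hε3 j i h1)⟩
    · apply LinearMap.ext
      intro x
      have hle : (⨆ j : (ZMod p)ˣ, Module.End.eigenspace
          (σ.baseChange (AlgebraicClosure ℚ_[ℓ])) (ev z₀ j)) ≤
          LinearMap.ker ((bcr ρ (AlgebraicClosure ℚ_[ℓ]) g) ^ (2 * p) - 1) := by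
        rw [iSup_le_iff]
        intro j u hu
        obtain ⟨d, φ, hd, hφ, hdu⟩ := hε1 j
        have h1 := refl_pow (R := bcr ρ (AlgebraicClosure ℚ_[ℓ])) (c := 1) hd hφ
          (fun u hu => by rw [one_smul]; exact hdu u hu) (2 * p) u hu
        rw [(hε2 j).1, sub_self, zero_mul, zero_smul, add_zero, one_pow, one_smul, map_pow] at h1
        rw [LinearMap.mem_ker, LinearMap.sub_apply, h1]
        exact sub_self u
      rw [htop] at hle
      have h1 := hle (show x ∈ ⊤ from trivial)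
      rw [LinearMap.mem_ker, LinearMap.sub_apply] at h1
      exact sub_eq_zero.1 h1
    · obtain ⟨d, φ, hd, hφ, hdu⟩ := hε1 j
      exact ⟨1, d, φ, hd, hφ, fun u hu => by rw [one_smul]; exact hdu u hu⟩
  have hF : HasFrobenii (bcr ρ (AlgebraicClosure ℚ_[ℓ])) (fun j : (ZMod p)ˣ =>
      Module.End.eigenspace (σ.baseChange (AlgebraicClosure ℚ_[ℓ])) (ev z₀ j)) := by
    intro i
    obtain ⟨F, hF, hF2⟩ := h.frobenius
    obtain ⟨b, hb⟩ := exists_diag (AlgebraicClosure ℚ_[ℓ]) hF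
    exact ⟨F, b, hb, hF2 _ (ev_prim hz₀ i)⟩
  have hnd' := left_nondeg ω h.pairing.alt h.pairing.nondeg
  exact refl_pt (bcb (AlgebraicClosure ℚ_[ℓ]) ω)
    (fun u hu => bcb_nondeg_left ω h.pairing.nondeg hnd' u hu)
    (bcb_inv ρ χ ω h.pairing.weil) (hasProj_bcr ρ _ h.semisimple) hE hrefl hF (det_free h hr hz₀) φ hφ

end

end Pool.Agent.Y128.SJ
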