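import Pool.Agent.Y128.SJ.Irr

/-!
# Valuations of determinants
-/

set_option linter.unusedSectionVars false

namespace Pool.Agent.Y128.SJ

open Module TensorProduct Polynomial Pool.Agent.H204R3.SP Pool.Agent.H204R3.GP
  Pool.Agent.W522.U Pool.Agent.TH118.CR

/-- A relation between the values of a rational polynomial at the powers of a root of unity holds
for all roots of unity. -/
theorem transfer {p : ℕ} [hp : Fact p.Prime] {K L : Type} [Field K] [CharZero K] [Field L]
    [CharZero L] {z : K} (hz : IsPrimitiveRoot z p) {w : L} (hw : IsPrimitiveRoot w p)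
    (D : ℚ[X]) {Q : Type} [Fintype Q] (e : Q → ℕ) (N : ℕ) (c : ℚ)
    (h : ∏ q, (aeval (z ^ e q) D) ^ N = algebraMap ℚ K c) :
    ∏ q, (aeval (w ^ e q) D) ^ N = algebraMap ℚ L c := by
  let P : ℚ[X] := ∏ q, (D.comp (X ^ e q)) ^ N - C c
  have hP : ∀ {F : Type} [Field F] [CharZero F] (x : F),
      aeval x P = ∏ q, (aeval (x ^ e q) D) ^ N - algebraMap ℚ F c := by
    intro F _ _ x
    simp only [P, map_sub, map_prod, map_pow, aeval_C, aeval_comp, aeval_X]
  have h1 : aeval z P = 0 := by rw [hP, h, sub_self]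
  have h2 : cyclotomic p ℚ ∣ P := by
    rw [cyclotomic_eq_minpoly_rat hz hp.out.pos]
    exact minpoly.dvd ℚ z h1
  obtain ⟨R, hR⟩ := h2
  have h3 : aeval w P = 0 := by
    rw [hR, map_mul]
    have h4 : aeval w (cyclotomic p ℚ) = 0 := by
      rw [cyclotomic_eq_minpoly_rat hw hp.out.pos]
      exact minpoly.aeval _ _
    rw [h4, zero_mul]
  rw [hP] at h3
  exact sub_eq_zero.1 h3

/-- The valuation of a product. -/
theorem val_prod {q : ℕ} [Fact q.Prime] {Q : Type} (s : Finset Q) (f : Q → ℚ_[q])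
    (hf : ∀ x ∈ s, f x ≠ 0) : (∏ x ∈ s, f x).valuation = ∑ x ∈ s, (f x).valuation := by
  classical
  induction s using Finset.induction_on with
  | empty => simp
  | insert a s ha ih =>
    have h1 : ∀ x ∈ s, f x ≠ 0 := fun x hx => hf x (Finset.mem_insert_of_mem hx)
    rw [Finset.prod_insert ha, Finset.sum_insert ha, Padic.valuation_mul
      (hf a (Finset.mem_insert_self a s)) (Finset.prod_ne_zero_iff.2 h1), ih h1]

/-- The sum of the Hodge numbers of eigenspaces whose determinants multiply to a power of the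
cyclotomic character. -/
theorem sum_mult {p n q a : ℕ} [hp : Fact p.Prime] [hq : Fact q.Prime] {K : Type} [Field K]
    [CharZero K] {z : K} (hz : IsPrimitiveRoot z p) {w : ℚ_[q]} (hw : IsPrimitiveRoot w p)
    {D : ℚ[X]} (ha : 0 < a)
    (hval : ∀ s : (ZMod p)ˣ, (aeval (w ^ (s : ZMod p).val) D).valuation = a * mult p n s)
    {Q : Type} [Fintype Q] (i : Q → (ZMod p)ˣ) {N d : ℕ} (hN : 0 < N)
    (h : ∏ x, (aeval (ev z (i x)) D) ^ N = (q : K) ^ (a * N * d)) (s : (ZMod p)ˣ) :
    ∑ x, (mult p n ((i x * s : (ZMod p)ˣ) : ZMod p) : ℤ) = d := by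
  have hs : ((s : ZMod p).val).Coprime p := by
    rw [Nat.coprime_comm, Nat.Prime.coprime_iff_not_dvd hp.out]
    intro h1
    have h2 := Nat.le_of_dvd (by
      rw [Nat.pos_iff_ne_zero]
      intro h3
      exact s.ne_zero ((ZMod.val_eq_zero _).1 h3)) h1
    exact absurd (ZMod.val_lt (s : ZMod p)) (not_lt.2 h2)
  have hws : IsPrimitiveRoot (w ^ (s : ZMod p).val) p := hw.pow_of_coprime _ hs
  have h1 := transfer hz hws D (fun x => ((i x : (ZMod p)ˣ) : ZMod p).val) N ((q : ℚ) ^ (a * N * d))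
    (by rw [map_pow, map_natCast]; exact h)
  have h2 : ∀ x, (w ^ (s : ZMod p).val) ^ ((i x : (ZMod p)ˣ) : ZMod p).val =
      w ^ ((i x * s : (ZMod p)ˣ) : ZMod p).val := by
    intro x
    have h3 := ev_mul hw s (i x)
    rw [mul_comm s] at h3
    exact h3
  simp only [h2, map_pow, map_natCast] at h1
  have hq0 : (q : ℚ_[q]) ^ (a * N * d) ≠ 0 := pow_ne_zero _ (Nat.cast_ne_zero.2 hq.out.ne_zero)
  have hne : ∀ x, aeval (w ^ ((i x * s : (ZMod p)ˣ) : ZMod p).val) D ≠ 0 := by
    intro x hx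
    apply hq0
    rw [← h1]
    exact Finset.prod_eq_zero (Finset.mem_univ x) (by rw [hx, zero_pow hN.ne'])
  have h3 := congrArg Padic.valuation h1
  rw [val_prod _ _ fun x _ => pow_ne_zero _ (hne x)] at h3
  rw [Padic.valuation_pow, Padic.valuation_p, mul_one] at h3
  have h4 : ((N : ℤ) * a) * ∑ x, (mult p n ((i x * s : (ZMod p)ˣ) : ZMod p) : ℤ) =
      ((N : ℤ) * a) * d := by
    have h5 : ((a * N * d : ℕ) : ℤ) = ((N : ℤ) * a) * d := by push_cast; ring
    rw [Finset.mul_sum, ← h5, ← h3]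
    refine Finset.sum_congr rfl fun x _ => ?_
    rw [Padic.valuation_pow, hval]
    ring
  have h5 : ((N : ℤ) * a) ≠ 0 := by positivity
  exact mul_left_cancel₀ h5 h4

end Pool.Agent.Y128.SJ
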