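import Mathlib

/-!
# The commutant over an extension
-/

namespace Pool.Agent.Y128.SJ

open Module TensorProduct

variable {k Ω : Type*} [Field k] [Field Ω] [Algebra k Ω] {V : Type*} [AddCommGroup V] [Module k V]
  [FiniteDimensional k V]

/-- An operator on `Ω ⊗ V` which commutes with the base changes of the operators in `S` is a
combination of base changes of operators which commute with the operators in `S`. -/
theorem comm_descent (S : Set (Module.End k V)) (Q : Module.End Ω (Ω ⊗[k] V))
    (hQ : ∀ T ∈ S, Q * T.baseChange Ω = T.baseChange Ω * Q) :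
    Q ∈ Submodule.span Ω ((fun P : Module.End k V => P.baseChange Ω) ''
      {P | ∀ T ∈ S, P * T = T * P}) := by
  classical
  let b := Module.finBasis k V
  let B := b.baseChange Ω
  let w := Basis.ofVectorSpace k Ω
  let M := LinearMap.toMatrix B B Q
  let C : Basis.ofVectorSpaceIndex k Ω → Matrix (Fin (finrank k V)) (Fin (finrank k V)) k :=
    fun i => Matrix.of fun a c => w.repr (M a c) i
  have hbc : ∀ T : Module.End k V, LinearMap.toMatrix B B (T.baseChange Ω) =
      (LinearMap.toMatrix b b T).map (algebraMap k Ω) := by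
    intro T
    ext a c
    rw [LinearMap.toMatrix_apply, Matrix.map_apply, LinearMap.toMatrix_apply]
    have h1 : B c = (1 : Ω) ⊗ₜ[k] b c := Basis.baseChange_apply _ _ _
    rw [h1, LinearMap.baseChange_tmul, Basis.baseChange_repr_tmul, Algebra.smul_def, mul_one]
  have hC : ∀ i, ∀ T ∈ S, Matrix.toLin b b (C i) * T = T * Matrix.toLin b b (C i) := by
    intro i T hT
    apply (LinearMap.toMatrix b b).injective
    rw [LinearMap.toMatrix_mul, LinearMap.toMatrix_mul, LinearMap.toMatrix_toLin]
    have h1 := congrArg (LinearMap.toMatrix B B) (hQ T hT)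
    rw [LinearMap.toMatrix_mul, LinearMap.toMatrix_mul, hbc] at h1
    ext a c
    have h2 := congrArg (fun N : Matrix (Fin (finrank k V)) (Fin (finrank k V)) Ω =>
      w.repr (N a c) i) h1
    simp only [Matrix.mul_apply, Matrix.map_apply, map_sum, Finsupp.coe_finsetSum,
      Finset.sum_apply] at h2
    rw [Matrix.mul_apply, Matrix.mul_apply]
    have h3 : ∀ (x : k) (y : Ω), w.repr (y * algebraMap k Ω x) i = w.repr y i * x := by
      intro x y
      rw [mul_comm, ← Algebra.smul_def, map_smul, Finsupp.smul_apply, smul_eq_mul, mul_comm]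
    have h4 : ∀ (x : k) (y : Ω), w.repr (algebraMap k Ω x * y) i = x * w.repr y i := by
      intro x y
      rw [← Algebra.smul_def, map_smul, Finsupp.smul_apply, smul_eq_mul]
    simp only [h3, h4] at h2
    exact h2
  let F : Finset (Basis.ofVectorSpaceIndex k Ω) :=
    Finset.univ.biUnion fun a => Finset.univ.biUnion fun c => (w.repr (M a c)).support
  have hsum : Q = ∑ i ∈ F, w i • (Matrix.toLin b b (C i)).baseChange Ω := by
    apply (LinearMap.toMatrix B B).injective
    rw [map_sum]
    simp only [map_smul, hbc, LinearMap.toMatrix_toLin]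
    ext a c
    rw [Matrix.sum_apply]
    simp only [Matrix.smul_apply, Matrix.map_apply, smul_eq_mul]
    change M a c = _
    conv_lhs => rw [← w.linearCombination_repr (M a c), Finsupp.linearCombination_apply]
    rw [Finsupp.sum_of_support_subset (s := F)]
    · refine Finset.sum_congr rfl fun i _ => ?_
      rw [Algebra.smul_def, mul_comm]
      rfl
    · intro i hi
      exact Finset.mem_biUnion.2 ⟨a, Finset.mem_univ _, Finset.mem_biUnion.2 ⟨c, Finset.mem_univ _, hi⟩⟩
    · intro i _
      exact zero_smul _ _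
  rw [hsum]
  refine Submodule.sum_mem _ fun i _ => Submodule.smul_mem _ _ (Submodule.subset_span ⟨_, ?_, rfl⟩)
  exact hC i

theorem adjoin_scalar (σ : Module.End k V) {P : Module.End k V} (hP : P ∈ Algebra.adjoin k {σ})
    (z : Ω) : ∃ c : Ω, ∀ u ∈ Module.End.eigenspace (σ.baseChange Ω) z, P.baseChange Ω u = c • u := by
  induction hP using Algebra.adjoin_induction with
  | mem P h =>
    rw [Set.mem_singleton_iff] at h
    subst h
    exact ⟨z, fun u hu => Module.End.mem_eigenspace_iff.1 hu⟩
  | algebraMap r =>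
    refine ⟨algebraMap k Ω r, fun u _ => ?_⟩
    have h1 : (algebraMap k (Module.End k V) r).baseChange Ω =
        (algebraMap k Ω r) • (LinearMap.id : Module.End Ω (Ω ⊗[k] V)) := by
      rw [Algebra.algebraMap_eq_smul_one, LinearMap.baseChange_smul, algebraMap_smul]
      congr 1
      exact LinearMap.baseChange_id
    rw [h1, LinearMap.smul_apply, LinearMap.id_apply]
  | add P P' _ _ h h' =>
    obtain ⟨c, hc⟩ := h
    obtain ⟨c', hc'⟩ := h'
    refine ⟨c + c', fun u hu => ?_⟩
    rw [LinearMap.baseChange_add, LinearMap.add_apply, hc u hu, hc' u hu, add_smul]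
  | mul P P' _ _ h h' =>
    obtain ⟨c, hc⟩ := h
    obtain ⟨c', hc'⟩ := h'
    refine ⟨c * c', fun u hu => ?_⟩
    have h1 : (P * P').baseChange Ω = P.baseChange Ω ∘ₗ P'.baseChange Ω :=
      LinearMap.baseChange_comp _ _
    rw [h1, LinearMap.comp_apply, hc' u hu, map_smul, hc u hu, smul_smul, mul_comm]

/-- If the commutant of `S` consists of polynomials in `σ`, the operators on `Ω ⊗ V` commuting with
`S` act as scalars on the eigenspaces of `σ`. -/
theorem scalar_of_comm (S : Set (Module.End k V)) (σ : Module.End k V)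
    (hS : ∀ P : Module.End k V, (∀ T ∈ S, P * T = T * P) → P ∈ Algebra.adjoin k {σ})
    (Q : Module.End Ω (Ω ⊗[k] V)) (hQ : ∀ T ∈ S, Q * T.baseChange Ω = T.baseChange Ω * Q) (z : Ω) :
    ∃ c : Ω, ∀ u ∈ Module.End.eigenspace (σ.baseChange Ω) z, Q u = c • u := by
  have h1 := comm_descent S Q hQ
  clear hQ
  induction h1 using Submodule.span_induction with
  | mem Q h =>
    obtain ⟨P, hP, rfl⟩ := h
    exact adjoin_scalar σ (hS P hP) z
  | zero => exact ⟨0, fun u _ => by rw [LinearMap.zero_apply, zero_smul]⟩
  | add Q Q' _ _ h h' =>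
    obtain ⟨c, hc⟩ := h
    obtain ⟨c', hc'⟩ := h'
    exact ⟨c + c', fun u hu => by rw [LinearMap.add_apply, hc u hu, hc' u hu, add_smul]⟩
  | smul a Q _ h =>
    obtain ⟨c, hc⟩ := h
    exact ⟨a * c, fun u hu => by rw [LinearMap.smul_apply, hc u hu, smul_smul]⟩

end Pool.Agent.Y128.SJ
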