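import Pool.Agent.Y128.SJ.Desc
import Pool.Agent.TH118.CR.Final

/-!
# The eigenspaces of an automorphism of prime order
-/

set_option linter.unusedSectionVars false

namespace Pool.Agent.Y128.SJ

open Module TensorProduct Pool.Agent.H204R3.SP Pool.Agent.H204R3.GP Pool.Agent.W522.U
  Pool.Agent.TH118.CR

section

variable {Ω : Type} [Field Ω] [CharZero Ω] {X : Type} [AddCommGroup X] [Module Ω X]
  [FiniteDimensional Ω X] {p : ℕ} [hp : Fact p.Prime] {S : Module.End Ω X}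
  (hS : ∑ i ∈ Finset.range p, S ^ i = 0)

include hS in
theorem pow_eq_one : S ^ p = 1 := by
  have h := mul_geom_sum S p
  rw [hS, mul_zero] at h
  exact (sub_eq_zero.1 h.symm)

/-- `p` times the projection to an eigenspace. -/
noncomputable def pj (S : Module.End Ω X) (p : ℕ) (z : Ω) : Module.End Ω X :=
  ∑ i ∈ Finset.range p, (z⁻¹) ^ i • S ^ i

include hS in
theorem pj_mem {z : Ω} (hz : z ^ p = 1) (x : X) : pj S p z x ∈ Module.End.eigenspace S z := by
  have hz0 : z ≠ 0 := by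
    rintro rfl
    rw [zero_pow hp.out.ne_zero] at hz
    exact zero_ne_one hz
  rw [Module.End.mem_eigenspace_iff, pj, LinearMap.sum_apply, map_sum, Finset.smul_sum]
  have h1 : ∀ i, S (((z⁻¹) ^ i • S ^ i) x) = z • (((z⁻¹) ^ (i + 1) • S ^ (i + 1)) x) := by
    intro i
    rw [LinearMap.smul_apply, LinearMap.smul_apply, map_smul, smul_smul, pow_succ' S i,
      Module.End.mul_apply]
    congr 1
    rw [pow_succ]
    field_simp
  rw [Finset.sum_congr rfl fun i _ => h1 i]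
  rw [← Finset.smul_sum, ← Finset.smul_sum]
  congr 1
  have h2 := Finset.sum_range_succ (fun i => ((z⁻¹) ^ i • S ^ i) x) p
  have h3 := Finset.sum_range_succ' (fun i => ((z⁻¹) ^ i • S ^ i) x) p
  rw [h2] at h3
  have h4 : ((z⁻¹) ^ p • S ^ p) x = ((z⁻¹) ^ 0 • S ^ 0) x := by
    rw [pow_eq_one hS, inv_pow, hz, inv_one, pow_zero, pow_zero]
  rw [h4] at h3
  exact (add_right_cancel h3).symm

theorem pj_eig {z : Ω} (hz : z ≠ 0) {x : X} (hx : x ∈ Module.End.eigenspace S z) :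
    pj S p z x = (p : Ω) • x := by
  rw [pj, LinearMap.sum_apply]
  have h1 : ∀ i : ℕ, (S ^ i) x = z ^ i • x := by
    intro i
    induction i with
    | zero => simp
    | succ i ih =>
      rw [pow_succ', Module.End.mul_apply, ih, map_smul, Module.End.mem_eigenspace_iff.1 hx,
        smul_smul, ← pow_succ]
  have h2 : ∀ i ∈ Finset.range p, ((z⁻¹) ^ i • S ^ i) x = x := by
    intro i _
    rw [LinearMap.smul_apply, h1, smul_smul, ← mul_pow, inv_mul_cancel₀ hz, one_pow, one_smul]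
  rw [Finset.sum_congr rfl h2, Finset.sum_const, Finset.card_range, Nat.cast_smul_eq_nsmul]

theorem pj_comm {z : Ω} {T : Module.End Ω X} (hT : T * S = S * T) (x : X) :
    pj S p z (T x) = T (pj S p z x) := by
  have h1 : ∀ i : ℕ, (S ^ i) (T x) = T ((S ^ i) x) := by
    intro i
    have h2 : Commute T S := hT
    have h3 := (h2.pow_right i).eq
    exact (congrArg (fun f : Module.End Ω X => f x) h3).symm
  rw [pj, LinearMap.sum_apply, LinearMap.sum_apply, map_sum]
  refine Finset.sum_congr rfl fun i _ => ?_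
  rw [LinearMap.smul_apply, LinearMap.smul_apply, h1, map_smul]

variable {z₀ : Ω} (hz₀ : IsPrimitiveRoot z₀ p)

/-- The eigenvalue with the number `j`. -/
def ev (z₀ : Ω) (j : (ZMod p)ˣ) : Ω := z₀ ^ (j : ZMod p).val

include hz₀ in
theorem pow_val (i : ℕ) : z₀ ^ (i : ZMod p).val = z₀ ^ i := by
  rw [ZMod.val_natCast, ← pow_mod_orderOf z₀ i, ← hz₀.eq_orderOf]

include hz₀ in
theorem pow_inj {i j : ZMod p} (h : z₀ ^ i.val = z₀ ^ j.val) : i = j :=
  ZMod.val_injective p (hz₀.pow_inj (ZMod.val_lt i) (ZMod.val_lt j) h)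

include hz₀ in
theorem ev_pow (j : (ZMod p)ˣ) : ev z₀ j ^ p = 1 := by
  rw [ev, ← pow_mul, mul_comm, pow_mul, hz₀.pow_eq_one, one_pow]

include hz₀ in
theorem ev_ne_one (j : (ZMod p)ˣ) : ev z₀ j ≠ 1 := by
  intro h
  have h1 : z₀ ^ (j : ZMod p).val = z₀ ^ (0 : ZMod p).val := by
    rw [ZMod.val_zero, pow_zero]
    exact h
  exact j.ne_zero (pow_inj hz₀ h1)

include hz₀ in
theorem ev_mul (i j : (ZMod p)ˣ) : ev z₀ i ^ (j : ZMod p).val = ev z₀ (i * j) := by
  rw [ev, ev, ← pow_mul, Units.val_mul, ← pow_val hz₀, Nat.cast_mul, ZMod.natCast_zmod_val,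
    ZMod.natCast_zmod_val]

include hz₀ in
theorem ev_neg (j : (ZMod p)ˣ) : ev z₀ j * ev z₀ (-j) = 1 := by
  rw [ev, ev, ← pow_add, ← pow_val hz₀, Nat.cast_add, ZMod.natCast_zmod_val,
    ZMod.natCast_zmod_val, Units.val_neg, add_neg_cancel, ZMod.val_zero, pow_zero]

include hz₀ in
theorem ev_dual {i j : (ZMod p)ˣ} (h : ev z₀ i * ev z₀ j = 1) : j = -i := by
  have h1 := ev_neg hz₀ i
  have h2 : ev z₀ j = ev z₀ (-i) := by
    have h0 : ev z₀ i ≠ 0 := left_ne_zero_of_mul_eq_one h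
    exact mul_left_cancel₀ h0 (h.trans h1.symm)
  exact Units.ext (pow_inj hz₀ h2)

include hz₀ hS in
/-- The space is the sum of the eigenspaces for the nontrivial roots of unity. -/
theorem iSup_eig : ⨆ j : (ZMod p)ˣ, Module.End.eigenspace S (ev z₀ j) = ⊤ := by
  rw [eq_top_iff]
  intro x _
  have hp0 : (p : Ω) ≠ 0 := Nat.cast_ne_zero.2 hp.out.ne_zero
  have hz0 : z₀ ≠ 0 := hz₀.ne_zero hp.out.ne_zero
  -- the sum of all projections
  have h1 : ∑ j : ZMod p, pj S p (z₀ ^ j.val) x = (p : Ω) • x := by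
    simp only [pj, LinearMap.sum_apply, LinearMap.smul_apply]
    rw [Finset.sum_comm]
    rw [Finset.sum_eq_single 0]
    · simp [Nat.cast_smul_eq_nsmul]
    · intro i hi hi0
      rw [← Finset.sum_smul]
      have h2 : ∑ j : ZMod p, ((z₀ ^ j.val)⁻¹) ^ i = 0 := by
        have h3 : ∀ j : ZMod p, ((z₀ ^ j.val)⁻¹) ^ i = ((z₀ ^ i)⁻¹) ^ j.val := by
          intro j
          rw [inv_pow, inv_pow, ← pow_mul, ← pow_mul, mul_comm]
        simp only [h3]
        have h4 : ∑ j : ZMod p, ((z₀ ^ i)⁻¹) ^ j.val = ∑ j ∈ Finset.range p, ((z₀ ^ i)⁻¹) ^ j := by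
          obtain ⟨q, rfl⟩ : ∃ q, p = q + 1 := ⟨p - 1, (Nat.succ_pred_eq_of_pos hp.out.pos).symm⟩
          exact Fin.sum_univ_eq_sum_range (fun j => ((z₀ ^ i)⁻¹) ^ j) (q + 1)
        rw [h4]
        have h5 : (z₀ ^ i)⁻¹ ≠ 1 := by
          rw [ne_eq, inv_eq_one]
          intro h6
          have h7 := hz₀.dvd_of_pow_eq_one i h6
          have h8 := Nat.le_of_dvd (Nat.pos_of_ne_zero hi0) h7
          exact absurd (Finset.mem_range.1 hi) (not_lt.2 h8)
        have h6 := mul_neg_geom_sum ((z₀ ^ i)⁻¹) p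
        have h7 : ((z₀ ^ i)⁻¹) ^ p = 1 := by
          rw [inv_pow, ← pow_mul, mul_comm, pow_mul, hz₀.pow_eq_one, one_pow, inv_one]
        rw [h7, sub_self] at h6
        exact (mul_eq_zero.1 h6).resolve_left (sub_ne_zero.2 h5.symm)
      rw [h2, zero_smul]
    · intro h
      exact absurd (Finset.mem_range.2 hp.out.pos) h
  have h2 : pj S p (z₀ ^ (0 : ZMod p).val) x = 0 := by
    rw [ZMod.val_zero, pow_zero, pj]
    simp only [inv_one, one_pow, one_smul]
    rw [hS, LinearMap.zero_apply]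
  have h3 : x = (p : Ω)⁻¹ • ∑ j : ZMod p, pj S p (z₀ ^ j.val) x := by
    rw [h1, smul_smul, inv_mul_cancel₀ hp0, one_smul]
  rw [h3]
  refine Submodule.smul_mem _ _ (Submodule.sum_mem _ fun j _ => ?_)
  by_cases hj : j = 0
  · rw [hj, h2]
    exact Submodule.zero_mem _
  · refine Submodule.mem_iSup_of_mem (Units.mk0 j hj) ?_
    exact pj_mem hS (ev_pow hz₀ (Units.mk0 j hj)) x

end

end Pool.Agent.Y128.SJ
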